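import Pool.Agent.MP_13e7a1_an.H82.Spec

/-!
Basic properties of the Cauchy transform, as a sum of two convolutions.
-/

open scoped ContDiff Topology Convolution
open Set Metric MeasureTheory Filter

noncomputable section

namespace Pool.Agent.MP_13e7a1_an.H70

open Pool.Agent.MP_13e7a1_an.H82

/-- Measurable kernels dominated by `‖ζ‖⁻¹`. -/
structure Ker (k : ℂ → ℝ) : Prop where
  meas : Measurable k
  le : ∀ ζ, |k ζ| ≤ ‖ζ‖⁻¹

lemma ker_aux (t : ℝ) (ζ : ℂ) (h : |t| ≤ ‖ζ‖) : |t / (2 * Real.pi * ‖ζ‖ ^ 2)| ≤ ‖ζ‖⁻¹ := by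
  rcases eq_or_lt_of_le (norm_nonneg ζ) with h0 | h0
  · simp [← h0]
  · have hp : (1 : ℝ) ≤ 2 * Real.pi := by linarith [Real.pi_gt_three]
    have hd : 0 < 2 * Real.pi * ‖ζ‖ ^ 2 := by positivity
    rw [abs_div, abs_of_pos hd, div_le_iff₀ hd]
    have : ‖ζ‖⁻¹ * (2 * Real.pi * ‖ζ‖ ^ 2) = 2 * Real.pi * ‖ζ‖ := by field_simp
    rw [this]
    nlinarith

lemma ker1 : Ker k1 where
  meas := by unfold k1; fun_prop
  le ζ := ker_aux _ ζ (Complex.abs_re_le_norm ζ)

lemma ker2 : Ker k2 where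
  meas := by unfold k2; fun_prop
  le ζ := ker_aux _ ζ (Complex.abs_im_le_norm ζ)

lemma inv_integrableOn (η : ℝ) : IntegrableOn (fun w : ℂ => ‖w‖⁻¹) (ball 0 η) := by
  refine integrableOn_ball_of_norm_le_rpow (C := 1) (α := 1) ?_ ?_ ?_ ?_
  · simp
  · simp
  · refine Eventually.of_forall fun w => ?_
    simp [Real.rpow_neg_one]
  · exact (measurable_norm.inv).aestronglyMeasurable

lemma Ker.locInt {k : ℂ → ℝ} (hk : Ker k) : LocallyIntegrable k volume := by
  intro x
  refine ⟨ball 0 (‖x‖ + 1), isOpen_ball.mem_nhds (by simp), ?_⟩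
  refine Integrable.mono' (inv_integrableOn (‖x‖ + 1)) hk.meas.aestronglyMeasurable ?_
  exact Eventually.of_forall fun ζ => hk.le ζ

variable {F : Type} [NormedAddCommGroup F] [NormedSpace ℝ F]

/-- Convolution with a scalar kernel. -/
def cv (k : ℂ → ℝ) (g : ℂ → F) : ℂ → F := k ⋆[ContinuousLinearMap.lsmul ℝ ℝ, volume] g

lemma cv_def (k : ℂ → ℝ) (g : ℂ → F) (z : ℂ) : cv k g z = ∫ ζ, k ζ • g (z - ζ) := rfl

lemma Ker.integ {k : ℂ → ℝ} (hk : Ker k) {g : ℂ → F} (hg : Continuous g)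
    (hc : HasCompactSupport g) (z : ℂ) : Integrable (fun ζ => k ζ • g (z - ζ)) :=
  hc.convolutionExists_right (ContinuousLinearMap.lsmul ℝ ℝ) hk.locInt hg z

lemma supp_comp (A : F →L[ℝ] F) {g : ℂ → F} (hc : HasCompactSupport g) :
    HasCompactSupport (fun z => A (g z)) := hc.comp_left (g := A) (map_zero A)

lemma cT_eq (A : F →L[ℝ] F) {g : ℂ → F} (hg : Continuous g) (hc : HasCompactSupport g) :
    cT A g = fun z => cv k1 g z - cv k2 (fun z => A (g z)) z := by
  funext z
  rw [cT, cv_def, cv_def, integral_sub (ker1.integ hg hc z)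
    (ker2.integ (g := fun z => A (g z)) (A.continuous.comp hg) (supp_comp A hc) z)]

omit [NormedSpace ℝ F] in
lemma supp_of_zero {g : ℂ → F} {R : ℝ} (h : ∀ z, R ≤ ‖z‖ → g z = 0) : HasCompactSupport g := by
  refine HasCompactSupport.intro (isCompact_closedBall (0 : ℂ) R) fun z hz => h z ?_
  simp only [mem_closedBall, dist_zero_right, not_le] at hz
  exact hz.le

lemma ind_integrable (z : ℂ) (R c : ℝ) : Integrable ((ball z R).indicator fun _ : ℂ => c) :=
  (integrable_indicator_iff measurableSet_ball).2 (integrableOn_const measure_ball_lt_top.ne)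

lemma ind_integral (z : ℂ) (R c : ℝ) :
    ∫ ζ, (ball z R).indicator (fun _ : ℂ => c) ζ = volume.real (ball (0 : ℂ) R) * c := by
  rw [integral_indicator measurableSet_ball, setIntegral_const, smul_eq_mul, Measure.real,
    Measure.real, Measure.addHaar_ball_center]

lemma Ker.bound {k : ℂ → ℝ} (hk : Ker k) {g : ℂ → F} {R B : ℝ}
    (h0 : ∀ z, R ≤ ‖z‖ → g z = 0) (hB : ∀ z, ‖g z‖ ≤ B) (z : ℂ) :
    ‖cv k g z‖ ≤ ((∫ w in ball (0 : ℂ) 1, ‖w‖⁻¹) + volume.real (ball (0 : ℂ) R)) * B := by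
  have hB0 : 0 ≤ B := (norm_nonneg _).trans (hB 0)
  have i1 : Integrable ((ball (0 : ℂ) 1).indicator fun w : ℂ => ‖w‖⁻¹) :=
    (integrable_indicator_iff measurableSet_ball).2 (inv_integrableOn 1)
  have i2 := ind_integrable z R 1
  rw [cv_def]
  refine (norm_integral_le_of_norm_le ((i1.add i2).mul_const B)
    (Eventually.of_forall fun ζ => ?_)).trans (le_of_eq ?_)
  · have n1 : 0 ≤ (ball (0 : ℂ) 1).indicator (fun w : ℂ => ‖w‖⁻¹) ζ :=
      indicator_nonneg (fun _ _ => by positivity) _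
    have n2 : 0 ≤ (ball z R).indicator (fun _ : ℂ => (1 : ℝ)) ζ :=
      indicator_nonneg (fun _ _ => by positivity) _
    rw [norm_smul, Real.norm_eq_abs, Pi.add_apply]
    by_cases hR : R ≤ ‖z - ζ‖
    · rw [h0 _ hR, norm_zero, mul_zero]
      positivity
    · have m2 : ζ ∈ ball z R := by
        rw [mem_ball, dist_comm, dist_eq_norm]; exact not_le.1 hR
      refine mul_le_mul ((hk.le ζ).trans ?_) (hB _) (norm_nonneg _) (by positivity)
      by_cases h1 : ζ ∈ ball (0 : ℂ) 1
      · rw [indicator_of_mem h1]; linarith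
      · rw [indicator_of_mem m2]
        simp only [mem_ball, dist_zero_right, not_lt] at h1
        have := inv_le_one_of_one_le₀ h1
        linarith
  · rw [integral_mul_const]
    congr 1
    simp only [Pi.add_apply]
    rw [integral_add i1 i2, integral_indicator measurableSet_ball, ind_integral, mul_one]

lemma Ker.far {k : ℂ → ℝ} (hk : Ker k) {g : ℂ → F} {R B : ℝ}
    (h0 : ∀ z, R ≤ ‖z‖ → g z = 0) (hB : ∀ z, ‖g z‖ ≤ B) (z : ℂ) (hz : R < ‖z‖) :
    ‖cv k g z‖ ≤ volume.real (ball (0 : ℂ) R) * ((‖z‖ - R)⁻¹ * B) := by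
  have hB0 : 0 ≤ B := (norm_nonneg _).trans (hB 0)
  have hp : 0 < ‖z‖ - R := sub_pos.2 hz
  rw [cv_def, ← ind_integral z]
  refine norm_integral_le_of_norm_le (ind_integrable z R _) (Eventually.of_forall fun ζ => ?_)
  rw [norm_smul, Real.norm_eq_abs]
  by_cases hR : R ≤ ‖z - ζ‖
  · rw [h0 _ hR, norm_zero, mul_zero]
    exact indicator_nonneg (fun _ _ => by positivity) _
  · have m2 : ζ ∈ ball z R := by
      rw [mem_ball, dist_comm, dist_eq_norm]; exact not_le.1 hR
    rw [indicator_of_mem m2]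
    refine mul_le_mul ((hk.le ζ).trans ?_) (hB _) (norm_nonneg _) (by positivity)
    refine inv_anti₀ hp ?_
    have := norm_sub_norm_le z ζ
    linarith [not_le.1 hR]

lemma Ker.decay {k : ℂ → ℝ} (hk : Ker k) {g : ℂ → F} (hg : Continuous g)
    (hc : HasCompactSupport g) : Tendsto (cv k g) (cocompact ℂ) (𝓝 0) := by
  obtain ⟨B, hB⟩ := hg.bounded_above_of_compact_support hc
  obtain ⟨R, hR⟩ := hc.isCompact.isBounded.subset_ball (0 : ℂ)
  have h0 : ∀ z, R ≤ ‖z‖ → g z = 0 := fun z hz => by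
    refine image_eq_zero_of_notMem_tsupport fun h => ?_
    have := hR h
    simp only [mem_ball, dist_zero_right] at this
    linarith
  have t1 : Tendsto (fun z : ℂ => ‖z‖) (cocompact ℂ) atTop := tendsto_norm_cocompact_atTop
  have t2 : Tendsto (fun z : ℂ => volume.real (ball (0 : ℂ) R) * ((‖z‖ - R)⁻¹ * B))
      (cocompact ℂ) (𝓝 (volume.real (ball (0 : ℂ) R) * (0 * B))) :=
    (((tendsto_atTop_add_const_right _ (-R) t1).inv_tendsto_atTop).mul_const B).const_mul _
  rw [zero_mul, mul_zero] at t2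
  refine squeeze_zero_norm' ?_ t2
  filter_upwards [t1.eventually_gt_atTop R] with z hz using hk.far h0 hB z hz

lemma Ker.cont {k : ℂ → ℝ} (hk : Ker k) {g : ℂ → F} (hg : Continuous g)
    (hc : HasCompactSupport g) : Continuous (cv k g) :=
  hc.continuous_convolution_right _ hk.locInt hg

lemma Ker.smooth [CompleteSpace F] {k : ℂ → ℝ} (hk : Ker k) {g : ℂ → F} (hg : ContDiff ℝ ∞ g)
    (hc : HasCompactSupport g) : ContDiff ℝ ∞ (cv k g) :=
  hc.contDiff_convolution_right _ hk.locInt hg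

lemma Ker.fderiv [CompleteSpace F] {k : ℂ → ℝ} (hk : Ker k) {g : ℂ → F} (hg : ContDiff ℝ ∞ g)
    (hc : HasCompactSupport g) (z v : ℂ) :
    fderiv ℝ (cv k g) z v = cv k (fun ζ => fderiv ℝ g ζ v) z := by
  have h1 : ContDiff ℝ 1 g := hg.of_le (by exact_mod_cast le_top)
  have := (hc.hasFDerivAt_convolution_right (ContinuousLinearMap.lsmul ℝ ℝ) hk.locInt h1 z).fderiv
  rw [cv, this, convolution_precompR_apply _ hk.locInt (hc.fderiv ℝ)
    (h1.continuous_fderiv one_ne_zero)]
  rfl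

theorem cauA : SCauA where
  integ F _ _ _ A g hg hc z := (ker1.integ hg hc z).sub
    (ker2.integ (g := fun z => A (g z)) (A.continuous.comp hg) (supp_comp A hc) z)
  bound F _ _ _ A R := by
    have c0 : 0 ≤ (∫ w in ball (0 : ℂ) 1, ‖w‖⁻¹) + volume.real (ball (0 : ℂ) R) :=
      add_nonneg (integral_nonneg fun w => by positivity) measureReal_nonneg
    refine ⟨((∫ w in ball (0 : ℂ) 1, ‖w‖⁻¹) + volume.real (ball (0 : ℂ) R)) * (1 + ‖A‖),
      by positivity, fun g B hg h0 hB => ?_⟩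
    have hc := supp_of_zero h0
    rw [cT_eq A hg hc]
    refine ⟨(ker1.cont hg hc).sub (ker2.cont (A.continuous.comp hg) (supp_comp A hc)),
      fun z => (norm_sub_le _ _).trans ?_⟩
    have b1 := ker1.bound h0 hB z
    have b2 := ker2.bound (g := fun z => A (g z)) (R := R) (B := ‖A‖ * B)
      (fun z hz => by rw [h0 z hz, map_zero])
      (fun z => (A.le_opNorm _).trans (mul_le_mul_of_nonneg_left (hB z) (norm_nonneg _))) z
    linarith
  smooth F _ _ _ A g hg hc := by
    have : CompleteSpace F := FiniteDimensional.complete ℝ F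
    have hA : ContDiff ℝ ∞ fun z => A (g z) := A.contDiff.comp hg
    have s1 := ker1.smooth hg hc
    have s2 := ker2.smooth hA (supp_comp A hc)
    have h1 : ContDiff ℝ 1 g := hg.of_le (by exact_mod_cast le_top)
    rw [cT_eq A hg.continuous hc]
    refine ⟨s1.sub s2, fun z v => ?_⟩
    have hv : Continuous fun ζ => fderiv ℝ g ζ v :=
      (h1.continuous_fderiv one_ne_zero).clm_apply continuous_const
    rw [cT_eq A hv (hc.fderiv_apply ℝ v), fderiv_fun_sub
      (s1.differentiable (by simp) z) (s2.differentiable (by simp) z),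
      sub_apply, ker1.fderiv hg hc, ker2.fderiv hA (supp_comp A hc)]
    congr 2
    funext ζ
    have := (A.hasFDerivAt.comp ζ (hg.differentiable (by simp) ζ).hasFDerivAt).fderiv
    change fderiv ℝ (A ∘ g) ζ v = _
    rw [this]
    rfl
  decay F _ _ _ A g hg hc := by
    rw [cT_eq A hg hc]
    simpa using (ker1.decay hg hc).sub
      (ker2.decay (g := fun z => A (g z)) (A.continuous.comp hg) (supp_comp A hc))

end Pool.Agent.MP_13e7a1_an.H70
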